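import Pool.Agent.H83.Bc.Final

/-! # Broadcast irredundance versus broadcast domination (MP_e7e1e7_co, Q1)

Definitions are in `Pool/Agent/H83/Bc/Defs.lean`. The hypothesis `hG` says that `γ_b(G)` is
defined; it holds exactly if `G` has no isolated vertex (on which every broadcast is zero). -/

namespace Pool.Agent.Results.MP_e7e1e7_co.ValuesAtLeastTwo

open Pool.Agent.H83.Bcast

/-- Let `G` be a finite graph for which dominating broadcasts exist and `f` a maximal irredundant
broadcast of `G` with `f(v) ≥ 2` for all `v` with `f(v) > 0`. Then `γ_b(G) ≤ σ(f)`; in particular,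
if `σ(f) = ir_b(G)` then `ir_b(G) = γ_b(G)`. -/
theorem result {V : Type*} [Fintype V] [DecidableEq V] (G : SimpleGraph V)
    (hG : ∃ g, IsDominating G g) (f : V → ℕ) (hf : MaxIrredundant G f)
    (h2 : ∀ v, 0 < f v → 2 ≤ f v) :
    gammab G ≤ cost f ∧ (cost f = irb G → irb G = gammab G) := by
  obtain ⟨g, hg⟩ := hG
  have h := gammab_le G (exists_adj G hg) hf h2
  exact ⟨h, fun hc => le_antisymm (irb_le_gammab G ⟨g, hg⟩) (hc ▸ h)⟩

end Pool.Agent.Results.MP_e7e1e7_co.ValuesAtLeastTwo
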